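import Pool.Agent.H458.EC.Formal

/-!
Everywhere convergent power series and entire curves.
-/

namespace H458.EC

open PowerSeries

/-- everywhere absolutely convergent -/
def Ent (A : ℂ⟦X⟧) : Prop := ∀ r : ℝ, 0 ≤ r → Summable fun k => ‖coeff k A‖ * r ^ k

/-- value -/
noncomputable def ev (A : ℂ⟦X⟧) (z : ℂ) : ℂ := ∑' k, coeff k A * z ^ k

theorem Ent.norm {A : ℂ⟦X⟧} (h : Ent A) (z : ℂ) : Summable fun k => ‖coeff k A * z ^ k‖ := by
  have := h ‖z‖ (norm_nonneg _)
  simpa [norm_mul, norm_pow] using this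

theorem Ent.summable {A : ℂ⟦X⟧} (h : Ent A) (z : ℂ) : Summable fun k => coeff k A * z ^ k :=
  (h.norm z).of_norm

theorem Ent.C (c : ℂ) : Ent (PowerSeries.C c) := by
  intro r _
  apply summable_of_ne_finset_zero (s := {0})
  intro k hk
  have : k ≠ 0 := by simpa using hk
  simp [PowerSeries.coeff_C, this]

theorem ev_C (c : ℂ) (z : ℂ) : ev (PowerSeries.C c) z = c := by
  unfold ev
  rw [tsum_eq_single 0]
  · simp
  · intro k hk
    simp [PowerSeries.coeff_C, hk]

theorem Ent.add {A B : ℂ⟦X⟧} (hA : Ent A) (hB : Ent B) : Ent (A + B) := by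
  intro r hr
  refine Summable.of_nonneg_of_le (fun k => by positivity) (fun k => ?_) ((hA r hr).add (hB r hr))
  rw [← add_mul]
  apply mul_le_mul_of_nonneg_right _ (by positivity)
  rw [map_add]
  exact norm_add_le _ _

theorem ev_add {A B : ℂ⟦X⟧} (hA : Ent A) (hB : Ent B) (z : ℂ) : ev (A + B) z = ev A z + ev B z := by
  unfold ev
  rw [← (hA.summable z).tsum_add (hB.summable z)]
  apply tsum_congr
  intro k
  rw [map_add]; ring

theorem Ent.mul {A B : ℂ⟦X⟧} (hA : Ent A) (hB : Ent B) : Ent (A * B) := by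
  intro r hr
  have h1 : Summable fun k => ‖(‖coeff k A‖ * r ^ k : ℝ)‖ := by
    simpa [abs_of_nonneg hr] using hA r hr
  have h2 : Summable fun k => ‖(‖coeff k B‖ * r ^ k : ℝ)‖ := by
    simpa [abs_of_nonneg hr] using hB r hr
  have := (summable_norm_sum_mul_antidiagonal_of_summable_norm h1 h2).of_norm
  refine Summable.of_nonneg_of_le (fun k => by positivity) (fun k => ?_) this
  rw [PowerSeries.coeff_mul]
  calc ‖∑ p ∈ Finset.HasAntidiagonal.antidiagonal k, coeff p.1 A * coeff p.2 B‖ * r ^ k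
      ≤ (∑ p ∈ Finset.HasAntidiagonal.antidiagonal k, ‖coeff p.1 A * coeff p.2 B‖) * r ^ k :=
        mul_le_mul_of_nonneg_right (norm_sum_le _ _) (by positivity)
    _ = ∑ p ∈ Finset.HasAntidiagonal.antidiagonal k, (‖coeff p.1 A‖ * r ^ p.1) * (‖coeff p.2 B‖ * r ^ p.2) := by
        rw [Finset.sum_mul]
        apply Finset.sum_congr rfl
        rintro ⟨i, j⟩ hij
        have : i + j = k := by simpa using hij
        rw [← this, norm_mul, pow_add]; ring

theorem ev_mul {A B : ℂ⟦X⟧} (hA : Ent A) (hB : Ent B) (z : ℂ) : ev (A * B) z = ev A z * ev B z := by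
  unfold ev
  rw [tsum_mul_tsum_eq_tsum_sum_antidiagonal_of_summable_norm (hA.norm z) (hB.norm z)]
  apply tsum_congr
  intro k
  rw [PowerSeries.coeff_mul, Finset.sum_mul]
  apply Finset.sum_congr rfl
  rintro ⟨i, j⟩ hij
  have : i + j = k := by simpa using hij
  rw [← this, pow_add]; ring

theorem ent_eval₂ {n : ℕ} (F : MvPolynomial (Fin n) ℂ) {A : Fin n → ℂ⟦X⟧} (hA : ∀ i, Ent (A i)) :
    Ent (MvPolynomial.eval₂ (PowerSeries.C (R := ℂ)) A F) ∧
    ∀ z, ev (MvPolynomial.eval₂ (PowerSeries.C (R := ℂ)) A F) z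
      = MvPolynomial.eval (fun i => ev (A i) z) F := by
  induction F using MvPolynomial.induction_on with
  | C c => 
    simp only [MvPolynomial.eval₂_C, MvPolynomial.eval_C]
    exact ⟨Ent.C c, ev_C c⟩
  | add p q hp hq =>
    simp only [MvPolynomial.eval₂_add, map_add]
    exact ⟨hp.1.add hq.1, fun z => by rw [ev_add hp.1 hq.1, hp.2, hq.2]⟩
  | mul_X p i hp =>
    simp only [MvPolynomial.eval₂_mul, MvPolynomial.eval₂_X, map_mul, MvPolynomial.eval_X]
    exact ⟨hp.1.mul (hA i), fun z => by rw [ev_mul hp.1 (hA i), hp.2]⟩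

/-- uniqueness of power series -/
theorem eq_zero_of_ev {A : ℂ⟦X⟧} (hA : Ent A) (h : ∀ z, ev A z = 0) : A = 0 := by
  by_contra hne
  have hex : ∃ k, coeff k A ≠ 0 := by
    by_contra hk
    push Not at hk
    exact hne (by ext k; simp [hk k])
  obtain ⟨m, hmm, hlt⟩ : ∃ m, coeff m A ≠ 0 ∧ ∀ k < m, coeff k A = 0 := by
    classical
    refine ⟨Nat.find hex, Nat.find_spec hex, fun k hk => ?_⟩
    by_contra h'
    exact Nat.find_min hex hk h'
  -- tail
  have hs : Summable fun k => ‖coeff (k + (m+1)) A‖ := by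
    have := hA 1 (by norm_num)
    simp only [one_pow, mul_one] at this
    exact (summable_nat_add_iff (f := fun k => ‖coeff k A‖) (m+1)).2 this
  set S := ∑' k, ‖coeff (k + (m+1)) A‖ with hS
  have hS0 : 0 ≤ S := tsum_nonneg fun k => norm_nonneg _
  have key : ∀ x : ℝ, 0 < x → x ≤ 1 → ‖coeff m A‖ ≤ x * S := by
    intro x hx hx1
    have h0 := h (x : ℂ)
    unfold ev at h0
    rw [← (hA.summable (x:ℂ)).sum_add_tsum_nat_add (m+1)] at h0
    rw [Finset.sum_range_succ, Finset.sum_eq_zero (fun k hk => by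
      rw [hlt k (Finset.mem_range.1 hk), zero_mul]), zero_add] at h0
    have e1 : coeff m A * (x:ℂ) ^ m = - ∑' k, coeff (k + (m+1)) A * (x:ℂ) ^ (k + (m+1)) := by
      linear_combination h0
    have hsx : Summable fun k => ‖coeff (k + (m+1)) A * (x:ℂ) ^ (k + (m+1))‖ :=
      (summable_nat_add_iff (f := fun k => ‖coeff k A * (x:ℂ) ^ k‖) (m+1)).2 (hA.norm (x:ℂ))
    have e2 : ‖coeff m A‖ * x ^ m ≤ x ^ (m+1) * S := by
      calc ‖coeff m A‖ * x ^ m = ‖coeff m A * (x:ℂ) ^ m‖ := by
            rw [norm_mul, norm_pow, Complex.norm_of_nonneg hx.le]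
        _ ≤ ∑' k, ‖coeff (k + (m+1)) A * (x:ℂ) ^ (k + (m+1))‖ := by
            rw [e1, norm_neg]
            exact norm_tsum_le_tsum_norm hsx
        _ ≤ ∑' k, x ^ (m+1) * ‖coeff (k + (m+1)) A‖ := by
            apply Summable.tsum_le_tsum _ hsx (hs.mul_left _)
            intro k
            rw [norm_mul, norm_pow, Complex.norm_of_nonneg hx.le, mul_comm]
            apply mul_le_mul_of_nonneg_right _ (norm_nonneg _)
            exact pow_le_pow_of_le_one hx.le hx1 (by omega)
        _ = x ^ (m+1) * S := by rw [tsum_mul_left]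
    have hxm : 0 < x ^ m := by positivity
    rw [pow_succ, mul_assoc, mul_comm (x ^ m)] at e2
    exact le_of_mul_le_mul_right e2 hxm
  have hpos : 0 < ‖coeff m A‖ := norm_pos_iff.2 hmm
  have := key (min 1 (‖coeff m A‖ / (2 * (S + 1)))) (by positivity) (min_le_left _ _)
  have h2 : min 1 (‖coeff m A‖ / (2 * (S + 1))) * S ≤ ‖coeff m A‖ / (2 * (S + 1)) * (S + 1) := by
    apply mul_le_mul (min_le_right _ _) (by linarith) hS0 (by positivity)
  have h3 : ‖coeff m A‖ / (2 * (S + 1)) * (S + 1) = ‖coeff m A‖ / 2 := by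
    field_simp
  linarith

/-- Taylor coefficients at the origin -/
noncomputable def tc {n : ℕ} (f : ℂ → Fin n → ℂ) (k : ℕ) : Fin n → ℂ :=
  ((k.factorial : ℂ))⁻¹ • iteratedDeriv k f 0

theorem hasSum_tc {n : ℕ} {f : ℂ → Fin n → ℂ} (hf : Differentiable ℂ f) (z : ℂ) :
    HasSum (fun k => z ^ k • tc f k) (f z) := by
  have := Complex.hasSum_taylorSeries_of_entire hf 0 z
  simp only [sub_zero] at this
  have e : (fun k => z ^ k • tc f k) =
      fun k => ((k.factorial : ℂ))⁻¹ • z ^ k • iteratedDeriv k f 0 := by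
    funext k
    unfold tc
    rw [smul_comm]
  rw [e]
  exact this

end H458.EC
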