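import Mathlib

/-!
Formal part: twisting power series by a multiplicative Freiman character.
-/

namespace H458.EC

open PowerSeries

/-- `χ` is multiplicatively Freiman of order `d` on `E`: products of at most `d` values depend only
on the number of factors and on the sum of the arguments. -/
def Fr (d : ℕ) (E : Set ℕ) (χ : ℕ → ℂ) : Prop :=
  ∀ s t : Multiset ℕ, s.card = t.card → s.card ≤ d → (∀ k ∈ s, k ∈ E) → (∀ k ∈ t, k ∈ E) →
    s.sum = t.sum → (s.map χ).prod = (t.map χ).prod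

def Rel (E : Set ℕ) (χ : ℕ → ℂ) (e N : ℕ) (c : ℂ) : Prop :=
  ∃ s : Multiset ℕ, s.card = e ∧ (∀ k ∈ s, k ∈ E) ∧ s.sum = N ∧ (s.map χ).prod = c

theorem Rel.uniq {d : ℕ} {E : Set ℕ} {χ : ℕ → ℂ} (h : Fr d E χ) {e N : ℕ} (he : e ≤ d) {c c' : ℂ}
    (h1 : Rel E χ e N c) (h2 : Rel E χ e N c') : c = c' := by
  obtain ⟨s, s1, s2, s3, s4⟩ := h1
  obtain ⟨t, t1, t2, t3, t4⟩ := h2
  rw [← s4, ← t4]
  exact h s t (by omega) (by omega) s2 t2 (by omega)

theorem Rel.mul {E : Set ℕ} {χ : ℕ → ℂ} {e e' N N' : ℕ} {c c' : ℂ}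
    (h1 : Rel E χ e N c) (h2 : Rel E χ e' N' c') : Rel E χ (e + e') (N + N') (c * c') := by
  obtain ⟨s, s1, s2, s3, s4⟩ := h1
  obtain ⟨t, t1, t2, t3, t4⟩ := h2
  refine ⟨s + t, by simp [s1, t1], ?_, by simp [s3, t3], by simp [s4, t4]⟩
  intro k hk
  rcases Multiset.mem_add.1 hk with hk | hk
  · exact s2 k hk
  · exact t2 k hk

/-- `B'` is the twist of `B`, a sum of products of `e` series supported in `E`. -/
def Tw (E : Set ℕ) (χ : ℕ → ℂ) (e : ℕ) (B B' : ℂ⟦X⟧) : Prop :=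
  ∀ N, (coeff N B = 0 ∧ coeff N B' = 0) ∨ ∃ c, Rel E χ e N c ∧ coeff N B' = c * coeff N B

theorem Tw.one (E : Set ℕ) (χ : ℕ → ℂ) : Tw E χ 0 1 1 := by
  intro N
  by_cases hN : N = 0
  · right
    subst hN
    exact ⟨1, ⟨0, by simp, by simp, by simp, by simp⟩, by simp⟩
  · left
    simp [PowerSeries.coeff_one, hN]

theorem Tw.mul {d : ℕ} {E : Set ℕ} {χ : ℕ → ℂ} (h : Fr d E χ) {e e' : ℕ} (he : e + e' ≤ d)
    {B B' C C' : ℂ⟦X⟧} (hB : Tw E χ e B B') (hC : Tw E χ e' C C') :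
    Tw E χ (e + e') (B * C) (B' * C') := by
  intro N
  by_cases hN : ∃ c, Rel E χ (e + e') N c
  · obtain ⟨c, hc⟩ := hN
    right
    refine ⟨c, hc, ?_⟩
    rw [PowerSeries.coeff_mul, PowerSeries.coeff_mul, Finset.mul_sum]
    apply Finset.sum_congr rfl
    rintro ⟨i, j⟩ hij
    have hij' : i + j = N := by simpa using hij
    rcases hB i with ⟨h1, h2⟩ | ⟨c1, hc1, h1⟩
    · simp [h1, h2]
    rcases hC j with ⟨h3, h4⟩ | ⟨c2, hc2, h3⟩
    · simp [h3, h4]
    have : c1 * c2 = c := by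
      have := hc1.mul hc2
      rw [hij'] at this
      exact Rel.uniq h he this hc
    simp only [h1, h3]
    rw [← this]; ring
  · left
    push Not at hN
    rw [PowerSeries.coeff_mul, PowerSeries.coeff_mul]
    constructor
    · apply Finset.sum_eq_zero
      rintro ⟨i, j⟩ hij
      have hij' : i + j = N := by simpa using hij
      rcases hB i with ⟨h1, h2⟩ | ⟨c1, hc1, h1⟩
      · simp [h1]
      rcases hC j with ⟨h3, h4⟩ | ⟨c2, hc2, h3⟩
      · simp [h3]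
      exact absurd (by rw [← hij']; exact hc1.mul hc2) (hN (c1 * c2))
    · apply Finset.sum_eq_zero
      rintro ⟨i, j⟩ hij
      have hij' : i + j = N := by simpa using hij
      rcases hB i with ⟨h1, h2⟩ | ⟨c1, hc1, h1⟩
      · simp [h2]
      rcases hC j with ⟨h3, h4⟩ | ⟨c2, hc2, h3⟩
      · simp [h4]
      exact absurd (by rw [← hij']; exact hc1.mul hc2) (hN (c1 * c2))

theorem Tw.base {E : Set ℕ} {χ : ℕ → ℂ} {a : ℕ → ℂ} (ha : ∀ k, k ∉ E → a k = 0) :
    Tw E χ 1 (PowerSeries.mk a) (PowerSeries.mk fun k => χ k * a k) := by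
  intro k
  by_cases hk : k ∈ E
  · right
    refine ⟨χ k, ⟨{k}, by simp, ?_, by simp, by simp⟩, by simp⟩
    intro j hj
    rw [Multiset.mem_singleton] at hj
    rw [hj]; exact hk
  · left
    simp [ha k hk]

theorem Tw.pow {d : ℕ} {E : Set ℕ} {χ : ℕ → ℂ} (h : Fr d E χ) {B B' : ℂ⟦X⟧}
    (hB : Tw E χ 1 B B') : ∀ {m : ℕ}, m ≤ d → Tw E χ m (B ^ m) (B' ^ m)
  | 0, _ => by simpa using Tw.one E χ
  | m + 1, hm => by
    rw [pow_succ, pow_succ]
    exact Tw.mul h hm (Tw.pow h hB (by omega)) hB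

theorem Tw.prod {ι : Type*} [DecidableEq ι] {d : ℕ} {E : Set ℕ} {χ : ℕ → ℂ} (h : Fr d E χ)
    {A A' : ι → ℂ⟦X⟧} (hA : ∀ i, Tw E χ 1 (A i) (A' i)) (m : ι → ℕ) (s : Finset ι) :
    ∑ i ∈ s, m i ≤ d → Tw E χ (∑ i ∈ s, m i) (∏ i ∈ s, A i ^ m i) (∏ i ∈ s, A' i ^ m i) := by
  induction s using Finset.induction_on with
  | empty => intro _; simpa using Tw.one E χ
  | insert i s hi ih =>
    intro hs
    rw [Finset.sum_insert hi] at hs
    rw [Finset.sum_insert hi, Finset.prod_insert hi, Finset.prod_insert hi]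
    exact Tw.mul h hs (Tw.pow h (hA i) (by omega)) (ih (by omega))

/-- **Formal character principle.** -/
theorem formal {n d e : ℕ} {E : Set ℕ} {χ : ℕ → ℂ} (h : Fr d E χ) (he : e ≤ d)
    {F : MvPolynomial (Fin n) ℂ} (hF : F.IsHomogeneous e) {A A' : Fin n → ℂ⟦X⟧}
    (hA : ∀ i, Tw E χ 1 (A i) (A' i))
    (h0 : MvPolynomial.eval₂ (PowerSeries.C (R := ℂ)) A F = 0) :
    MvPolynomial.eval₂ (PowerSeries.C (R := ℂ)) A' F = 0 := by
  have key : ∀ m ∈ F.support, Tw E χ e (∏ i, A i ^ m i) (∏ i, A' i ^ m i) := by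
    intro m hm
    have hdeg : ∑ i, m i = e := by
      have := hF (MvPolynomial.mem_support_iff.1 hm)
      rw [Finsupp.weight_apply, Finsupp.sum_fintype _ _ (by simp)] at this
      simpa using this
    have := Tw.prod h hA m Finset.univ (by omega)
    rwa [hdeg] at this
  ext N
  rw [MvPolynomial.eval₂_eq'] at h0 ⊢
  have h0N := congrArg (coeff N) h0
  simp only [map_sum, PowerSeries.coeff_C_mul, map_zero] at h0N ⊢
  by_cases hN : ∃ c, Rel E χ e N c
  · obtain ⟨c, hc⟩ := hN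
    have : ∑ m ∈ F.support, MvPolynomial.coeff m F * coeff N (∏ i, A' i ^ m i)
        = c * ∑ m ∈ F.support, MvPolynomial.coeff m F * coeff N (∏ i, A i ^ m i) := by
      rw [Finset.mul_sum]
      apply Finset.sum_congr rfl
      intro m hm
      rcases key m hm N with ⟨h1, h2⟩ | ⟨c', hc', h1⟩
      · rw [h1, h2]; simp
      · rw [h1, Rel.uniq h he hc' hc]; ring
    rw [this, h0N, mul_zero]
  · push Not at hN
    apply Finset.sum_eq_zero
    intro m hm
    rcases key m hm N with ⟨h1, h2⟩ | ⟨c', hc', h1⟩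
    · rw [h2, mul_zero]
    · exact absurd hc' (hN c')

end H458.EC
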