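import Pool.Agent.H458.EC.Analytic

/-!
The character principle for entire curves.
-/

namespace H458.EC

open PowerSeries

/-- The affine cone of the common zero set of a family of polynomials. -/
def Cone {n : ℕ} (S : Set (MvPolynomial (Fin n) ℂ)) : Set (Fin n → ℂ) :=
  {v | ∀ F ∈ S, MvPolynomial.eval v F = 0}

/-- All members of the family are homogeneous of degree at most `d`. -/
def Forms {n : ℕ} (d : ℕ) (S : Set (MvPolynomial (Fin n) ℂ)) : Prop :=
  ∀ F ∈ S, ∃ e ≤ d, F.IsHomogeneous e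

noncomputable def ser {n : ℕ} (χ : ℕ → ℂ) (f : ℂ → Fin n → ℂ) (i : Fin n) : ℂ⟦X⟧ :=
  PowerSeries.mk fun k => χ k * tc f k i

theorem summable_tc {n : ℕ} {f : ℂ → Fin n → ℂ} (hf : Differentiable ℂ f) (i : Fin n) (r : ℝ)
    (hr : 0 ≤ r) : Summable fun k => ‖tc f k i‖ * r ^ k := by
  have h := Pi.hasSum.1 (hasSum_tc hf (r : ℂ)) i
  have h2 := (summable_norm_iff.2 h.summable)
  refine h2.congr ?_
  intro k
  rw [Pi.smul_apply, smul_eq_mul, norm_mul, norm_pow, Complex.norm_of_nonneg hr, mul_comm]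

theorem ent_ser {n : ℕ} {f : ℂ → Fin n → ℂ} (hf : Differentiable ℂ f) {χ : ℕ → ℂ} {C R : ℝ}
    (hR : 0 ≤ R) (hb : ∀ k, tc f k ≠ 0 → ‖χ k‖ ≤ C * R ^ k) (i : Fin n) : Ent (ser χ f i) := by
  intro r hr
  have h := (summable_tc hf i (R * r) (by positivity)).mul_left C
  refine Summable.of_nonneg_of_le (fun k => by positivity) (fun k => ?_) h
  unfold ser
  rw [PowerSeries.coeff_mk, norm_mul]
  by_cases hk : tc f k = 0
  · simp [hk]
  · have := hb k hk
    calc ‖χ k‖ * ‖tc f k i‖ * r ^ k ≤ (C * R ^ k) * ‖tc f k i‖ * r ^ k := by gcongr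
      _ = C * (‖tc f k i‖ * (R * r) ^ k) := by rw [mul_pow]; ring

/-- The twisted curve. -/
noncomputable def tw {n : ℕ} (χ : ℕ → ℂ) (f : ℂ → Fin n → ℂ) (z : ℂ) : Fin n → ℂ :=
  ∑' k, (χ k * z ^ k) • tc f k

theorem summable_tw {n : ℕ} {f : ℂ → Fin n → ℂ} (hf : Differentiable ℂ f) {χ : ℕ → ℂ} {C R : ℝ}
    (hR : 0 ≤ R) (hb : ∀ k, tc f k ≠ 0 → ‖χ k‖ ≤ C * R ^ k) (z : ℂ) :
    Summable fun k => (χ k * z ^ k) • tc f k := by
  rw [Pi.summable]
  intro i
  have := (ent_ser hf hR hb i).summable z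
  refine this.congr ?_
  intro k
  unfold ser
  rw [PowerSeries.coeff_mk, Pi.smul_apply, smul_eq_mul]; ring

theorem ev_ser {n : ℕ} {f : ℂ → Fin n → ℂ} (hf : Differentiable ℂ f) {χ : ℕ → ℂ} {C R : ℝ}
    (hR : 0 ≤ R) (hb : ∀ k, tc f k ≠ 0 → ‖χ k‖ ≤ C * R ^ k) (z : ℂ) (i : Fin n) :
    ev (ser χ f i) z = tw χ f z i := by
  unfold ev tw
  rw [tsum_apply (summable_tw hf hR hb z)]
  apply tsum_congr
  intro k
  unfold ser
  rw [PowerSeries.coeff_mk, Pi.smul_apply, smul_eq_mul]; ring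

theorem tw_one {n : ℕ} {f : ℂ → Fin n → ℂ} (hf : Differentiable ℂ f) (z : ℂ) :
    tw (fun _ => 1) f z = f z := by
  unfold tw
  simp only [one_mul]
  exact (hasSum_tc hf z).tsum_eq

/-- **Character principle.** -/
theorem character {n d : ℕ} {S : Set (MvPolynomial (Fin n) ℂ)} (hS : Forms d S)
    {f : ℂ → Fin n → ℂ} (hf : Differentiable ℂ f) (hX : ∀ z, f z ∈ Cone S) {χ : ℕ → ℂ} {C R : ℝ}
    (hR : 0 ≤ R) (hb : ∀ k, tc f k ≠ 0 → ‖χ k‖ ≤ C * R ^ k) (hχ : Fr d {k | tc f k ≠ 0} χ) (z : ℂ) :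
    tw χ f z ∈ Cone S := by
  intro F hF
  obtain ⟨e, he, hFe⟩ := hS F hF
  have hb1 : ∀ k, tc f k ≠ 0 → ‖(fun _ => (1:ℂ)) k‖ ≤ 1 * 1 ^ k := by intro k _; simp
  have h0 : MvPolynomial.eval₂ (PowerSeries.C (R := ℂ)) (ser (fun _ => 1) f) F = 0 := by
    have h1 := ent_eval₂ F (A := ser (fun _ => 1) f) (ent_ser hf zero_le_one hb1)
    apply eq_zero_of_ev h1.1
    intro w
    rw [h1.2 w]
    have : (fun i => ev (ser (fun _ => 1) f i) w) = f w := by
      funext i
      rw [ev_ser hf zero_le_one hb1, tw_one hf]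
    rw [this]
    exact hX w F hF
  have h1 : MvPolynomial.eval₂ (PowerSeries.C (R := ℂ)) (ser χ f) F = 0 := by
    refine formal hχ he hFe (A := ser (fun _ => 1) f) ?_ h0
    intro i
    have := Tw.base (E := {k | tc f k ≠ 0}) (χ := χ) (a := fun k => tc f k i) (by
      intro k hk
      have : tc f k = 0 := by simpa using hk
      simp [this])
    have e1 : ser (fun _ => 1) f i = PowerSeries.mk fun k => tc f k i := by
      unfold ser; simp
    rw [e1]
    exact this
  have h2 := (ent_eval₂ F (A := ser χ f) (ent_ser hf hR hb)).2 z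
  rw [h1] at h2
  have : (fun i => ev (ser χ f i) z) = tw χ f z := by
    funext i
    rw [ev_ser hf hR hb]
  rw [this] at h2
  rw [← h2]
  simp [ev]

/-- `E` is a `B_h` set (a Sidon set of order `h`): sums of `h` elements are distinct. -/
def Bh (h : ℕ) (E : Set ℕ) : Prop :=
  ∀ s t : Multiset ℕ, s.card = h → t.card = h → (∀ k ∈ s, k ∈ E) → (∀ k ∈ t, k ∈ E) →
    s.sum = t.sum → s = t

theorem fr_of_bh {d : ℕ} {E : Set ℕ} (h : Bh d E) (χ : ℕ → ℂ) : Fr d E χ := by
  intro s t hst hs hsE htE hsum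
  rcases Multiset.empty_or_exists_mem s with h0 | ⟨k0, hk0⟩
  · subst h0
    have : t = 0 := by
      rw [← Multiset.card_eq_zero, ← hst]; simp
    rw [this]
  · have hk0E := hsE k0 hk0
    have := h (s + Multiset.replicate (d - s.card) k0) (t + Multiset.replicate (d - s.card) k0)
      (by rw [Multiset.card_add, Multiset.card_replicate]; omega)
      (by rw [Multiset.card_add, Multiset.card_replicate]; omega)
      (by
        intro k hk
        rcases Multiset.mem_add.1 hk with hk | hk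
        · exact hsE k hk
        · rw [Multiset.eq_of_mem_replicate hk]; exact hk0E)
      (by
        intro k hk
        rcases Multiset.mem_add.1 hk with hk | hk
        · exact htE k hk
        · rw [Multiset.eq_of_mem_replicate hk]; exact hk0E)
      (by rw [Multiset.sum_add, Multiset.sum_add, hsum])
    rw [add_right_cancel this]

theorem mem_span_tc {n : ℕ} {f : ℂ → Fin n → ℂ} (hf : Differentiable ℂ f) (z : ℂ) :
    f z ∈ Submodule.span ℂ (Set.range (tc f)) := by
  have hc : IsClosed (Submodule.span ℂ (Set.range (tc f)) : Set (Fin n → ℂ)) :=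
    Submodule.closed_of_finiteDimensional _
  refine hc.mem_of_tendsto (hasSum_tc hf z) (Filter.Eventually.of_forall fun s => ?_)
  apply Submodule.sum_mem
  intro k _
  exact Submodule.smul_mem _ _ (Submodule.subset_span ⟨k, rfl⟩)

theorem span_mem {n d : ℕ} {S : Set (MvPolynomial (Fin n) ℂ)} (hS : Forms d S)
    {f : ℂ → Fin n → ℂ} (hf : Differentiable ℂ f) (hX : ∀ z, f z ∈ Cone S)
    (hE : Bh d {k | tc f k ≠ 0}) {v : Fin n → ℂ} (hv : v ∈ Submodule.span ℂ (Set.range f)) :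
    v ∈ Cone S := by
  have hv' : v ∈ Submodule.span ℂ (Set.range (tc f)) := by
    refine (Submodule.span_le.2 ?_) hv
    rintro _ ⟨z, rfl⟩
    exact mem_span_tc hf z
  obtain ⟨c, hc⟩ := (Finsupp.mem_span_range_iff_exists_finsupp).1 hv'
  have hb : ∀ k, tc f k ≠ 0 → ‖c k‖ ≤ (∑ j ∈ c.support, ‖c j‖) * 1 ^ k := by
    intro k _
    rw [one_pow, mul_one]
    by_cases hk : k ∈ c.support
    · exact Finset.single_le_sum (f := fun j => ‖c j‖) (fun j _ => norm_nonneg _) hk
    · have : c k = 0 := by simpa using hk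
      rw [this, norm_zero]
      exact Finset.sum_nonneg fun j _ => norm_nonneg _
  have := character hS hf hX zero_le_one hb (fr_of_bh hE c) 1
  have e : tw c f 1 = v := by
    rw [← hc]
    unfold tw Finsupp.sum
    rw [tsum_eq_sum (s := c.support)]
    · simp
    · intro k hk
      have : c k = 0 := by simpa using hk
      simp [this]
  rw [e] at this
  exact this

end H458.EC
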