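import Pool.Agent.H458.EC.Main

/-!
Rational curves through the points of lacunary entire curves.
-/

namespace H458.EC

open PowerSeries

/-- The curve with values in the projective space defined by `γ` is not constant. -/
def NonConst {n : ℕ} (γ : ℂ → Fin n → ℂ) : Prop :=
  ∃ s t, LinearIndependent ℂ ![γ s, γ t]

/-- The polynomial curve with coefficients `v 0, ..., v D`. -/
def poly {n D : ℕ} (v : Fin (D + 1) → Fin n → ℂ) (t : ℂ) : Fin n → ℂ :=
  ∑ j : Fin (D + 1), t ^ (j : ℕ) • v j

theorem differentiable_ev {A : ℂ⟦X⟧} (hA : Ent A) : Differentiable ℂ (ev A) := by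
  intro z
  have h1 : DifferentiableOn ℂ (fun w => ∑' k, coeff k A * w ^ k) (Metric.ball 0 (‖z‖ + 1)) := by
    refine Complex.differentiableOn_tsum_of_summable_norm (u := fun k => ‖coeff k A‖ * (‖z‖ + 1) ^ k)
      (hA (‖z‖ + 1) (by positivity)) ?_ Metric.isOpen_ball ?_
    · intro k
      fun_prop
    · intro k w hw
      have hw' : ‖w‖ < ‖z‖ + 1 := by simpa using hw
      rw [norm_mul, norm_pow]
      gcongr
  have h2 : Metric.ball (0:ℂ) (‖z‖ + 1) ∈ nhds z := by
    apply Metric.isOpen_ball.mem_nhds
    simp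
  exact (h1 z (by simp)).differentiableAt h2

theorem not_li_iff {n : ℕ} (u v : Fin n → ℂ) :
    ¬ LinearIndependent ℂ ![u, v] ↔ ∀ i j, u i * v j - u j * v i = 0 := by
  rw [LinearIndependent.pair_iff]
  constructor
  · intro h i j
    push Not at h
    obtain ⟨s, t, hst, h2⟩ := h
    have ei := congrFun hst i
    have ej := congrFun hst j
    simp only [Pi.add_apply, Pi.smul_apply, smul_eq_mul, Pi.zero_apply] at ei ej
    by_cases hs : s = 0
    · have ht := h2 hs
      rw [hs] at ei ej
      have hi : v i = 0 := by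
        have : t * v i = 0 := by linear_combination ei
        exact (mul_eq_zero.1 this).resolve_left ht
      have hj : v j = 0 := by
        have : t * v j = 0 := by linear_combination ej
        exact (mul_eq_zero.1 this).resolve_left ht
      rw [hi, hj]; ring
    · have : s * (u i * v j - u j * v i) = 0 := by linear_combination v j * ei - v i * ej
      exact (mul_eq_zero.1 this).resolve_left hs
  · intro h hli
    by_cases hu : u = 0
    · have := hli 1 0 (by simp [hu])
      simp at this
    · obtain ⟨i, hi⟩ := Function.ne_iff.1 hu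
      have hi' : u i ≠ 0 := by simpa using hi
      have := hli (- v i) (u i) (by
        funext j
        simp only [Pi.add_apply, Pi.smul_apply, smul_eq_mul, Pi.zero_apply]
        linear_combination h i j)
      exact hi' this.2

theorem fr_pow {d : ℕ} {E : Set ℕ} {m : ℕ → ℕ}
    (hm : ∀ s t : Multiset ℕ, s.card = t.card → s.card ≤ d → (∀ k ∈ s, k ∈ E) →
      (∀ k ∈ t, k ∈ E) → s.sum = t.sum → (s.map m).sum = (t.map m).sum) (t : ℂ) :
    Fr d E (fun k => t ^ m k) := by
  have key : ∀ s : Multiset ℕ, (s.map fun k => t ^ m k).prod = t ^ (s.map m).sum := by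
    intro s
    induction s using Multiset.induction_on with
    | empty => simp
    | cons a s ih => simp [ih, pow_add]
  intro s u h1 h2 h3 h4 h5
  rw [key, key, hm s u h1 h2 h3 h4 h5]

/-- residues -/
theorem mod_sum {d q : ℕ} {E : Set ℕ} (hq : 0 < q) (hE : ∀ k ∈ E, d * (k % q) < q) (s : Multiset ℕ)
    (hs : s.card ≤ d) (hsE : ∀ k ∈ s, k ∈ E) : (s.map fun k => k % q).sum = s.sum % q := by
  have h1 : ∀ s : Multiset ℕ, ((s.map fun k => k % q).sum) % q = s.sum % q := by
    intro s
    induction s using Multiset.induction_on with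
    | empty => simp
    | cons a s ih =>
      rw [Multiset.map_cons, Multiset.sum_cons, Multiset.sum_cons, Nat.add_mod, ih, Nat.mod_mod,
        ← Nat.add_mod]
  have h2 : d * (s.map fun k => k % q).sum ≤ s.card * (q - 1) := by
    clear hs
    induction s using Multiset.induction_on with
    | empty => simp
    | cons a s ih =>
      rw [Multiset.map_cons, Multiset.sum_cons, Multiset.card_cons, mul_add, add_mul, one_mul]
      have := hE a (hsE a (Multiset.mem_cons_self a s))
      have := ih (fun k hk => hsE k (Multiset.mem_cons_of_mem hk))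
      omega
  have h3 : (s.map fun k => k % q).sum < q := by
    by_contra h
    push Not at h
    rcases Nat.eq_zero_or_pos d with hd | hd
    · have : s = 0 := by
        rw [← Multiset.card_eq_zero]; omega
      subst this
      simp at h
      omega
    · have h4 : d * q ≤ d * (q - 1) :=
        (Nat.mul_le_mul_left d h).trans (h2.trans (Nat.mul_le_mul_right _ hs))
      have h5 := Nat.le_of_mul_le_mul_left h4 hd
      omega
  rw [← h1 s, Nat.mod_eq_of_lt h3]

/-- The component of `f` with exponents congruent to `j` modulo `q`. -/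
noncomputable def comp {n : ℕ} (q j : ℕ) (f : ℂ → Fin n → ℂ) (z : ℂ) : Fin n → ℂ :=
  tw (fun k => if k % q = j then 1 else 0) f z

theorem tw_residue {n d q : ℕ} (hq : 0 < q) (hd : 0 < d) {f : ℂ → Fin n → ℂ}
    (hf : Differentiable ℂ f)
    (hE : ∀ k, tc f k ≠ 0 → d * (k % q) < q) (t z : ℂ) :
    tw (fun k => t ^ (k % q)) f z = poly (D := (q - 1) / d) (fun j => comp q j f z) t := by
  unfold poly comp tw
  have hs : ∀ j : ℕ, Summable fun k => ((if k % q = j then (1:ℂ) else 0) * z ^ k) • tc f k := by
    intro j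
    apply summable_tw hf zero_le_one (C := 1)
    intro k _
    rw [one_pow, mul_one]
    split_ifs <;> simp
  have e1 : ∀ j : Fin ((q - 1) / d + 1),
      t ^ (j:ℕ) • ∑' k, ((if k % q = (j:ℕ) then (1:ℂ) else 0) * z ^ k) • tc f k
      = ∑' k, t ^ (j:ℕ) • ((if k % q = (j:ℕ) then (1:ℂ) else 0) * z ^ k) • tc f k := by
    intro j
    rw [(hs j).tsum_const_smul]
  rw [Finset.sum_congr rfl fun j _ => e1 j]
  have hs2 : ∀ j ∈ (Finset.univ : Finset (Fin ((q - 1) / d + 1))), Summable fun k =>
      t ^ (j:ℕ) • ((if k % q = (j:ℕ) then (1:ℂ) else 0) * z ^ k) • tc f k :=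
    fun j _ => (hs j).const_smul _
  rw [← Summable.tsum_finsetSum hs2]
  apply tsum_congr
  intro k
  by_cases hk : tc f k = 0
  · simp [hk]
  · have hlt : k % q < (q - 1) / d + 1 := by
      rw [Nat.lt_succ_iff, Nat.le_div_iff_mul_le hd]
      have := hE k hk
      rw [mul_comm] at this
      omega
    rw [Finset.sum_eq_single (⟨k % q, hlt⟩ : Fin ((q - 1) / d + 1))]
    · simp [smul_smul]
    · intro j _ hj
      have : ¬ (k % q = (j:ℕ)) := by
        intro h
        apply hj
        ext
        simp [h]
      simp [this]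
    · intro h
      exact absurd (Finset.mem_univ _) h

theorem bound_pow {n q : ℕ} {f : ℂ → Fin n → ℂ} (hq : 0 < q) (t : ℂ) :
    ∀ k, tc f k ≠ 0 → ‖(fun k => t ^ (k % q)) k‖ ≤ (max 1 ‖t‖) ^ q * 1 ^ k := by
  intro k _
  rw [one_pow, mul_one]
  simp only [norm_pow]
  calc ‖t‖ ^ (k % q) ≤ (max 1 ‖t‖) ^ (k % q) := by gcongr; exact le_max_right _ _
    _ ≤ (max 1 ‖t‖) ^ q := pow_le_pow_right₀ (le_max_left _ _) (Nat.mod_lt _ hq).le

/-- Entire curves whose exponents have small residues modulo `q`. -/
theorem residue {n d q : ℕ} (hq : 0 < q) (hd : 0 < d) {S : Set (MvPolynomial (Fin n) ℂ)}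
    (hS : Forms d S) {f : ℂ → Fin n → ℂ} (hf : Differentiable ℂ f) (hX : ∀ z, f z ∈ Cone S)
    (hE : ∀ k, tc f k ≠ 0 → d * (k % q) < q) :
    (∀ z, ¬ LinearIndependent ℂ ![f (Complex.exp (2 * Real.pi * Complex.I / q) * z), f z]) ∨
    ∀ Y : Set (Fin n → ℂ), IsClosed Y →
      (∀ v : Fin ((q - 1) / d + 1) → Fin n → ℂ, (∀ t, poly v t ∈ Cone S) → NonConst (poly v) →
        ∀ t, poly v t ∈ Y) → ∀ z, f z ∈ Y := by
  by_cases hcase : ∀ Y : Set (Fin n → ℂ), IsClosed Y →
      (∀ v : Fin ((q - 1) / d + 1) → Fin n → ℂ, (∀ t, poly v t ∈ Cone S) → NonConst (poly v) →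
        ∀ t, poly v t ∈ Y) → ∀ z, f z ∈ Y
  · exact Or.inr hcase
  left
  push Not at hcase
  obtain ⟨Y, hY, hY2, z0, hz0⟩ := hcase
  -- membership of the curves
  have hmem : ∀ t z, poly (D := (q - 1) / d) (fun j => comp q j f z) t ∈ Cone S := by
    intro t z
    rw [← tw_residue hq hd hf hE t z]
    apply character hS hf hX zero_le_one (bound_pow hq t)
    apply fr_pow
    intro s u h1 h2 h3 h4 h5
    rw [mod_sum hq (E := {k | tc f k ≠ 0}) hE s h2 h3,
      mod_sum hq (E := {k | tc f k ≠ 0}) hE u (by omega) h4, h5]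
  -- the value at t = 1
  have hone : ∀ z, poly (D := (q - 1) / d) (fun j => comp q j f z) 1 = f z := by
    intro z
    rw [← tw_residue hq hd hf hE 1 z]
    simp only [one_pow]
    exact tw_one hf z
  -- neighbourhood
  have hU : ∀ᶠ z in nhds z0, f z ∉ Y :=
    (hf.continuous.continuousAt (x := z0)).eventually (hY.isOpen_compl.mem_nhds hz0)
  have hconst : ∀ᶠ z in nhds z0, ¬ NonConst (poly (D := (q - 1) / d) (fun j => comp q j f z)) := by
    filter_upwards [hU] with z hz hn
    apply hz
    have := hY2 _ (fun t => hmem t z) hn 1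
    rwa [hone z] at this
  -- identity theorem
  have hdiff : ∀ (t : ℂ) (i : Fin n), Differentiable ℂ
      (fun z => poly (D := (q - 1) / d) (fun j => comp q j f z) t i) := by
    intro t i
    have e : (fun z => poly (D := (q - 1) / d) (fun j => comp q j f z) t i)
        = ev (ser (fun k => t ^ (k % q)) f i) := by
      funext z
      rw [← tw_residue hq hd hf hE t z, ev_ser hf zero_le_one (bound_pow hq t)]
    rw [e]
    exact differentiable_ev (ent_ser hf zero_le_one (bound_pow hq t) i)
  have hall : ∀ z s t, ¬ LinearIndependent ℂ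
      ![poly (D := (q - 1) / d) (fun j => comp q j f z) s,
        poly (D := (q - 1) / d) (fun j => comp q j f z) t] := by
    intro z s t
    rw [not_li_iff]
    intro i j
    set G : ℂ → ℂ := fun z => poly (D := (q - 1) / d) (fun j => comp q j f z) s i *
        poly (D := (q - 1) / d) (fun j => comp q j f z) t j -
        poly (D := (q - 1) / d) (fun j => comp q j f z) s j *
        poly (D := (q - 1) / d) (fun j => comp q j f z) t i with hG
    have hGd : Differentiable ℂ G :=
      ((hdiff s i).mul (hdiff t j)).sub ((hdiff s j).mul (hdiff t i))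
    have hGa : AnalyticOnNhd ℂ G Set.univ := fun w _ => hGd.analyticAt w
    have hG0 : G =ᶠ[nhds z0] 0 := by
      filter_upwards [hconst] with w hw
      have h1 : ¬ LinearIndependent ℂ
        ![poly (D := (q - 1) / d) (fun j => comp q j f w) s,
          poly (D := (q - 1) / d) (fun j => comp q j f w) t] := fun h => hw ⟨s, t, h⟩
      rw [not_li_iff] at h1
      exact h1 i j
    have := hGa.eqOn_zero_of_preconnected_of_eventuallyEq_zero isPreconnected_univ
      (Set.mem_univ z0) hG0 (Set.mem_univ z)
    exact this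
  intro z
  have h1 := hall z (Complex.exp (2 * Real.pi * Complex.I / q)) 1
  rw [hone z] at h1
  have e : poly (D := (q - 1) / d) (fun j => comp q j f z)
      (Complex.exp (2 * Real.pi * Complex.I / q))
      = f (Complex.exp (2 * Real.pi * Complex.I / q) * z) := by
    rw [← tw_residue hq hd hf hE _ z, ← tw_one hf]
    unfold tw
    apply tsum_congr
    intro k
    have hw : Complex.exp (2 * Real.pi * Complex.I / q) ^ q = 1 := by
      rw [← Complex.exp_nat_mul]
      have hq' : (q : ℂ) ≠ 0 := by
        exact_mod_cast hq.ne'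
      rw [mul_div_cancel₀ _ hq']
      exact Complex.exp_two_pi_mul_I
    have hw2 : Complex.exp (2 * Real.pi * Complex.I / q) ^ (k % q)
        = Complex.exp (2 * Real.pi * Complex.I / q) ^ k := by
      conv_rhs => rw [← Nat.div_add_mod k q, pow_add, pow_mul, hw, one_pow, one_mul]
    simp only [hw2, mul_pow, one_mul]
  rw [e] at h1
  exact h1

end H458.EC
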